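import Pool.Agent.W295.PR.Stm

set_option autoImplicit false

namespace Pool.Agent.W52.PR.COMP

open Pool.Agent.W295.PR

theorem main : S_COMP := by
  intro R S _ _ G _ RF SF GF ψ hadd hψ n
  induction n with
  | zero =>
    intro l f hf x
    exact hf (ψ x)
  | succ n ih =>
    intro l f hf
    refine ⟨ih l f hf.1, fun j hj h hh => ?_⟩
    have h1 := ih (l + j) (dd (ψ h) f) (hf.2 j hj (ψ h) (hψ j hj h hh))
    have h2 : dd h (fun x => f (ψ x)) = fun x => dd (ψ h) f (ψ x) := by
      funext x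
      show f (ψ (x + h)) * (f (ψ x))⁻¹ = f (ψ x + ψ h) * (f (ψ x))⁻¹
      rw [hadd]
    rw [h2]
    exact h1

end Pool.Agent.W52.PR.COMP
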