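import Pool.Agent.W295.PR.Stm

set_option autoImplicit false

namespace Pool.Agent.W52.PR.POW

open Pool.Agent.W295.PR

theorem isPoly_const {R : Type} [AddCommGroup R] {G : Type} [Group G]
    (RF : ℕ → AddSubgroup R) (GF : ℕ → Subgroup G) (n : ℕ) :
    ∀ (l : ℕ) (c : G), c ∈ GF l → IsPoly RF GF n l (fun _ : R => c) := by
  induction n with
  | zero =>
    intro l c hc x
    exact hc
  | succ n ih =>
    intro l c hc
    refine ⟨ih l c hc, fun j hj h hh => ?_⟩
    have h2 : dd h (fun _ : R => c) = fun _ => (1 : G) := by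
      funext x
      unfold dd
      exact mul_inv_cancel c
    rw [h2]
    exact ih (l + j) 1 (one_mem _)

theorem main : S_POW := by
  intro R _ G _ RF GF b m l hadd hb hj n
  induction n with
  | zero =>
    intro x
    exact zpow_mem hb (m x)
  | succ n ih =>
    refine ⟨ih, fun j hj1 h hh => ?_⟩
    have h2 : dd h (fun x => b ^ (m x)) = fun _ => b ^ (m h) := by
      funext x
      show b ^ m (x + h) * (b ^ m x)⁻¹ = b ^ m h
      rw [hadd, zpow_add]
      have h3 : b ^ m x * b ^ m h = b ^ m h * b ^ m x := by
        rw [← zpow_add, ← zpow_add, add_comm]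
      rw [h3, mul_assoc, mul_inv_cancel, mul_one]
    rw [h2]
    apply isPoly_const
    rcases hj j hj1 with h0 | h0
    · rw [h0 h hh, zpow_zero]
      exact one_mem _
    · exact zpow_mem h0 _

end Pool.Agent.W52.PR.POW
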